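import Pool.Agent.H37.PP3

set_option autoImplicit false

open Pool.Agent.H37 Pool.Agent.H37.Med

/-- A recursively presented group on which some effectively closed degree is not realised. -/
theorem Pool.Agent.Results.MP_474f70_lc.Omit.result :
    ∃ (G : Type) (_ : Group G) (_ : Infinite G) (r : ℕ) (gens : Fin r → G),
      Subgroup.closure (Set.range gens) = ⊤ ∧ (REPred fun w => ev gens w = 1) ∧
      ∃ P, Pi01 P ∧ ∀ (k : ℕ) (X : Set (G → Fin k)),
        ¬ (Weak P (hat gens '' X) ∧ Weak (hat gens '' X) P) := by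
  obtain ⟨G, _, _, gens, h1, h2, -, c, h3, ⟨x, hx⟩, h4⟩ := PP.main
  refine ⟨G, inferInstance, inferInstance, 3, gens, h1, h2, _, ⟨⟨x, hx⟩, c, h3.computable, rfl⟩, ?_⟩
  rintro k X ⟨a, b⟩
  obtain ⟨_, ⟨y, hy, rfl⟩, e⟩ := b x hx
  obtain ⟨z, hz, e'⟩ := a _ ⟨y, hy, rfl⟩
  exact (h4 z hz.2).1 ((CI.of_ri e').trans ((h4 x hx.2).2 (fun g => (y g).val) (CI.of_ri e)))
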